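import Mathlib
import Pool.Agent.R261.CritD

/-!
# MP_57aba6_an, Q2: a four point set `X` with `CP(X) = C(X)`

There are four real points `-t < -1 < 1 < t` such that every real function on
`X = {-t, -1, 1, t}` is a limit on `X` of real polynomials all of whose critical points
lie in `X`. Since `X` is compact and disconnected, this disproves the statement of Q2.

The derivatives used are `κ (x+t)^a (x+1)^b (x-1)^c (x-t)^d`. For real exponents proportional to
`(s, 1, 1, s)` the maxima of the absolute value in the three gaps agree when `t` is chosen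
properly; for suitable irrational `s` the ratios of the three integrals are dense.
-/

set_option autoImplicit false

open Set Filter Topology MeasureTheory intervalIntegral Polynomial

namespace Pool.Agent.Results.MP_57aba6_an.DenseOnFourPoints

/-- All complex critical points of the real polynomial `p` lie in `X`. -/
def CriticalPointsIn (X : Set ℝ) (p : ℝ[X]) : Prop :=
  ∀ z : ℂ, Polynomial.aeval z (derivative p) = 0 → ∃ x ∈ X, z = (x : ℂ)

/-- `CP(X)`: uniform limits on `X` of real polynomials with all critical points in `X`. -/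
def CP (X : Set ℝ) : Set C(X, ℝ) :=
  closure {g : C(X, ℝ) | ∃ p : ℝ[X], CriticalPointsIn X p ∧ ∀ x : X, g x = p.eval (x : ℝ)}

/-! ### antiderivatives -/

lemma exists_antideriv (q : ℝ[X]) : ∃ p : ℝ[X], derivative p = q := by
  induction q using Polynomial.induction_on' with
  | add q1 q2 h1 h2 =>
    obtain ⟨p1, rfl⟩ := h1
    obtain ⟨p2, rfl⟩ := h2
    exact ⟨p1 + p2, by simp⟩
  | monomial n a =>
    refine ⟨monomial (n + 1) (a / (n + 1)), ?_⟩
    rw [derivative_monomial]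
    have : ((n : ℝ) + 1) ≠ 0 := by positivity
    congr 1
    push_cast
    field_simp

variable (P : Pool.Agent.R261.Crit.Par)

/-- the derivative (up to a constant) -/
noncomputable def dpoly (a b c d : ℕ) : ℝ[X] :=
  (X + C P.t) ^ a * (X + C 1) ^ b * (X - C 1) ^ c * (X - C P.t) ^ d

lemma eval_dpoly (a b c d : ℕ) (x : ℝ) : (dpoly P a b c d).eval x =
    (x + P.t) ^ a * (x + 1) ^ b * (x - 1) ^ c * (x - P.t) ^ d := by
  simp [dpoly]

lemma int3 (a b c d : ℕ) : ∫ x in (1)..P.t, (dpoly P a b c d).eval x =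
    (-1) ^ d * P.A3 a b c d := by
  unfold Pool.Agent.R261.Crit.Par.A3
  rw [← intervalIntegral.integral_const_mul]
  refine intervalIntegral.integral_congr fun x hx => ?_
  rw [uIcc_of_le P.t_gt.le] at hx
  rw [eval_dpoly]
  unfold Pool.Agent.R261.Crit.Par.w
  have ht := P.t_gt
  rw [abs_of_nonneg (by linarith [hx.1] : 0 ≤ x + P.t), abs_of_nonneg (by linarith [hx.1] : 0 ≤ x + 1),
    abs_of_nonneg (by linarith [hx.1] : 0 ≤ x - 1), abs_of_nonpos (by linarith [hx.2] : x - P.t ≤ 0),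
    neg_pow (x - P.t)]
  have e : ((-1 : ℝ) ^ d) * (-1) ^ d = 1 := by rw [← mul_pow]; norm_num
  linear_combination (-((x + P.t) ^ a * (x + 1) ^ b * (x - 1) ^ c * (x - P.t) ^ d)) * e

lemma int2 (a b c d : ℕ) : ∫ x in (-1)..1, (dpoly P a b c d).eval x =
    (-1) ^ d * ((-1) ^ c * P.A2 a b c d) := by
  unfold Pool.Agent.R261.Crit.Par.A2
  rw [← intervalIntegral.integral_const_mul, ← intervalIntegral.integral_const_mul]
  refine intervalIntegral.integral_congr fun x hx => ?_
  rw [uIcc_of_le (by norm_num)] at hx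
  rw [eval_dpoly]
  unfold Pool.Agent.R261.Crit.Par.w
  have ht := P.t_gt
  rw [abs_of_nonneg (by linarith [hx.1] : 0 ≤ x + P.t), abs_of_nonneg (by linarith [hx.1] : 0 ≤ x + 1),
    abs_of_nonpos (by linarith [hx.2] : x - 1 ≤ 0), abs_of_nonpos (by linarith [hx.2] : x - P.t ≤ 0),
    neg_pow (x - P.t), neg_pow (x - 1)]
  have e : ((-1 : ℝ) ^ d) * (-1) ^ d = 1 := by rw [← mul_pow]; norm_num
  have e' : ((-1 : ℝ) ^ c) * (-1) ^ c = 1 := by rw [← mul_pow]; norm_num
  linear_combination (-((x + P.t) ^ a * (x + 1) ^ b * (x - 1) ^ c * (x - P.t) ^ d)) * e *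
    ((-1 : ℝ) ^ c) * (-1) ^ c - ((x + P.t) ^ a * (x + 1) ^ b * (x - 1) ^ c * (x - P.t) ^ d) * e'

lemma int1 (a b c d : ℕ) : ∫ x in (-P.t)..(-1), (dpoly P a b c d).eval x =
    (-1) ^ d * ((-1) ^ c * ((-1) ^ b * P.A1 a b c d)) := by
  unfold Pool.Agent.R261.Crit.Par.A1
  rw [← intervalIntegral.integral_const_mul, ← intervalIntegral.integral_const_mul,
    ← intervalIntegral.integral_const_mul]
  refine intervalIntegral.integral_congr fun x hx => ?_
  have ht := P.t_gt
  rw [uIcc_of_le (by linarith)] at hx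
  rw [eval_dpoly]
  unfold Pool.Agent.R261.Crit.Par.w
  rw [abs_of_nonneg (by linarith [hx.1] : 0 ≤ x + P.t), abs_of_nonpos (by linarith [hx.2] : x + 1 ≤ 0),
    abs_of_nonpos (by linarith [hx.2] : x - 1 ≤ 0), abs_of_nonpos (by linarith [hx.2] : x - P.t ≤ 0),
    neg_pow (x - P.t), neg_pow (x - 1), neg_pow (x + 1)]
  have e : ((-1 : ℝ) ^ d) * (-1) ^ d = 1 := by rw [← mul_pow]; norm_num
  have e' : ((-1 : ℝ) ^ c) * (-1) ^ c = 1 := by rw [← mul_pow]; norm_num
  have e'' : ((-1 : ℝ) ^ b) * (-1) ^ b = 1 := by rw [← mul_pow]; norm_num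
  have : (-1 : ℝ) ^ d * ((-1) ^ c * ((-1) ^ b * ((x + P.t) ^ a * ((-1) ^ b * (x + 1) ^ b) *
      ((-1) ^ c * (x - 1) ^ c) * ((-1) ^ d * (x - P.t) ^ d)))) =
      (((-1 : ℝ) ^ d) * (-1) ^ d) * (((-1 : ℝ) ^ c) * (-1) ^ c) * (((-1 : ℝ) ^ b) * (-1) ^ b) *
      ((x + P.t) ^ a * (x + 1) ^ b * (x - 1) ^ c * (x - P.t) ^ d) := by ring
  rw [this, e, e', e'']
  ring

lemma crit_dpoly {κ : ℝ} (hκ : κ ≠ 0) (a b c d : ℕ) {z : ℂ}
    (hz : Polynomial.aeval z (C κ * dpoly P a b c d) = 0) :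
    ∃ x ∈ ({-P.t, -1, 1, P.t} : Set ℝ), z = (x : ℂ) := by
  unfold dpoly at hz
  simp only [map_mul, map_pow, map_add, map_sub, aeval_X, aeval_C, Complex.coe_algebraMap,
    mul_eq_zero, Complex.ofReal_eq_zero, hκ, false_or] at hz
  rcases hz with ((hz | hz) | hz) | hz
  · refine ⟨-P.t, by simp, ?_⟩
    have h := eq_zero_of_pow_eq_zero hz
    push_cast
    linear_combination h
  · refine ⟨-1, by simp, ?_⟩
    have h := eq_zero_of_pow_eq_zero hz
    push_cast at h ⊢
    linear_combination h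
  · refine ⟨1, by simp, ?_⟩
    have h := eq_zero_of_pow_eq_zero hz
    push_cast at h ⊢
    linear_combination h
  · refine ⟨P.t, by simp, ?_⟩
    have h := eq_zero_of_pow_eq_zero hz
    linear_combination h

/-- closeness of `exp`. -/
lemma exp_close (U : ℝ) {e : ℝ} (he : 0 < e) : ∃ η > 0, ∀ x, |x - U| < η →
    |Real.exp x - Real.exp U| < e := by
  obtain ⟨η, hη, h⟩ := Metric.continuous_iff.1 Real.continuous_exp U e he
  refine ⟨η, hη, fun x hx => ?_⟩
  have := h x (by rwa [Real.dist_eq])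
  rwa [Real.dist_eq] at this

lemma sign_pow {β b : ℕ} (h : b % 2 = β % 2) : (-1 : ℝ) ^ b = (-1) ^ β := by
  rw [neg_one_pow_eq_pow_mod_two, h, ← neg_one_pow_eq_pow_mod_two]

lemma exists_sign {x : ℝ} (hx : x ≠ 0) : ∃ β : ℕ, x = (-1) ^ β * Real.exp (Real.log |x|) := by
  rw [Real.exp_log (abs_pos.2 hx)]
  rcases lt_or_gt_of_ne hx with h | h
  · exact ⟨1, by rw [abs_of_neg h]; ring⟩
  · exact ⟨0, by rw [abs_of_pos h]; ring⟩

/-- The main approximation: nonzero increments. -/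
lemma approx (f0 d1 d2 d3 : ℝ) (h1 : d1 ≠ 0) (h2 : d2 ≠ 0) (h3 : d3 ≠ 0) {ε : ℝ} (hε : 0 < ε) :
    ∃ p : ℝ[X], CriticalPointsIn {-P.t, -1, 1, P.t} p ∧ p.eval (-P.t) = f0 ∧
      |p.eval (-1) - (f0 + d1)| < ε ∧ |p.eval 1 - (f0 + d1 + d2)| < ε ∧
      |p.eval P.t - (f0 + d1 + d2 + d3)| < ε := by
  obtain ⟨β, hβ⟩ := exists_sign (div_ne_zero h1 h2)
  obtain ⟨γ, hγ⟩ := exists_sign (div_ne_zero h3 h2)
  set V := Real.log |d1 / d2| with hV
  set U := Real.log |d3 / d2| with hU
  have hd2 : 0 < |d2| := abs_pos.2 h2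
  obtain ⟨η1, hη1, hη1'⟩ := exp_close V (e := ε / (2 * |d2|)) (by positivity)
  obtain ⟨η3, hη3, hη3'⟩ := exp_close U (e := ε / (2 * |d2|)) (by positivity)
  obtain ⟨a, b, c, d, hb, hc, hA3, hA1⟩ := P.dens_ratio U V (lt_min hη1 hη3) β γ
  have hA3' := hη3' _ (hA3.trans_le (min_le_right _ _))
  have hA1' := hη1' _ (hA1.trans_le (min_le_left _ _))
  have hp1 : 0 < P.A1 a b c d := by
    rw [P.A1_eq]
    exact P.A3_pos _ _ _ _
  have hp2 := P.A2_pos a b c d
  have hp3 := P.A3_pos a b c d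
  rw [Real.exp_sub, Real.exp_log hp3, Real.exp_log hp2] at hA3'
  rw [Real.exp_sub, Real.exp_log hp1, Real.exp_log hp2] at hA1'
  have hsb := sign_pow hb
  have hsc := sign_pow hc
  have ed : ((-1 : ℝ) ^ d) * (-1) ^ d = 1 := by rw [← mul_pow]; norm_num
  have ec : ((-1 : ℝ) ^ c) * (-1) ^ c = 1 := by rw [← mul_pow]; norm_num
  have ebs : |(-1 : ℝ) ^ b| = 1 := by rw [abs_pow, abs_neg, abs_one, one_pow]
  have ecs : |(-1 : ℝ) ^ c| = 1 := by rw [abs_pow, abs_neg, abs_one, one_pow]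
  set κ := d2 * ((-1) ^ d * (-1) ^ c) / P.A2 a b c d with hκ
  have hκ0 : κ ≠ 0 := by
    refine div_ne_zero (mul_ne_zero h2 (mul_ne_zero ?_ ?_)) hp2.ne' <;>
      exact pow_ne_zero _ (by norm_num)
  obtain ⟨p0, hp0⟩ := exists_antideriv (C κ * dpoly P a b c d)
  set p := p0 + C (f0 - p0.eval (-P.t)) with hp
  have hpd : derivative p = C κ * dpoly P a b c d := by
    rw [hp, derivative_add, derivative_C, add_zero, hp0]
  have hftc : ∀ x y : ℝ, p.eval y - p.eval x = κ * ∫ u in x..y, (dpoly P a b c d).eval u := by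
    intro x y
    rw [← intervalIntegral.integral_const_mul]
    rw [intervalIntegral.integral_eq_sub_of_hasDerivAt (f := fun u => p.eval u)]
    · intro u _
      have := p.hasDerivAt u
      rw [hpd, eval_mul, eval_C] at this
      exact this
    · exact (continuous_const.mul (dpoly P a b c d).continuous).intervalIntegrable _ _
  have hv0 : p.eval (-P.t) = f0 := by
    rw [hp, eval_add, eval_C]
    ring
  have hv1 : p.eval (-1) - p.eval (-P.t) = d2 * ((-1) ^ b * (P.A1 a b c d / P.A2 a b c d)) := by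
    rw [hftc, int1, hκ]
    field_simp
    linear_combination (((-1 : ℝ) ^ c * (-1) ^ c) * ed + ec)
  have hv2 : p.eval 1 - p.eval (-1) = d2 := by
    rw [hftc, int2, hκ]
    field_simp
    linear_combination (((-1 : ℝ) ^ c * (-1) ^ c) * ed + ec)
  have hv3 : p.eval P.t - p.eval 1 = d2 * ((-1) ^ c * (P.A3 a b c d / P.A2 a b c d)) := by
    rw [hftc, int3, hκ]
    field_simp
    linear_combination ed
  have hd1 : d1 = d2 * ((-1) ^ b * Real.exp V) := by
    rw [hsb, ← hβ]
    field_simp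
  have hd3 : d3 = d2 * ((-1) ^ c * Real.exp U) := by
    rw [hsc, ← hγ]
    field_simp
  have he1 : |(p.eval (-1) - p.eval (-P.t)) - d1| < ε / 2 := by
    rw [hv1, hd1, ← mul_sub, ← mul_sub, abs_mul, abs_mul, ebs, one_mul]
    calc |d2| * |P.A1 a b c d / P.A2 a b c d - Real.exp V| < |d2| * (ε / (2 * |d2|)) := by gcongr
      _ = ε / 2 := by field_simp
  have he3 : |(p.eval P.t - p.eval 1) - d3| < ε / 2 := by
    rw [hv3, hd3, ← mul_sub, ← mul_sub, abs_mul, abs_mul, ecs, one_mul]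
    calc |d2| * |P.A3 a b c d / P.A2 a b c d - Real.exp U| < |d2| * (ε / (2 * |d2|)) := by gcongr
      _ = ε / 2 := by field_simp
  rw [abs_lt] at he1 he3
  refine ⟨p, ?_, hv0, ?_, ?_, ?_⟩
  · intro z hz
    rw [hpd] at hz
    exact crit_dpoly P hκ0 a b c d hz
  · rw [abs_lt]
    constructor <;> linarith [he1.1, he1.2]
  · rw [abs_lt]
    constructor <;> linarith [he1.1, he1.2]
  · rw [abs_lt]
    constructor <;> linarith [he1.1, he1.2, he3.1, he3.2]

lemma exists_ne_zero_close (d : ℝ) {ε : ℝ} (hε : 0 < ε) : ∃ d' : ℝ, d' ≠ 0 ∧ |d' - d| < ε := by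
  by_cases h : d = 0
  · refine ⟨ε / 2, by positivity, ?_⟩
    rw [h, sub_zero, abs_of_pos (by positivity)]
    linarith
  · exact ⟨d, h, by simpa using hε⟩

/-- **Theorem.** There is a compact disconnected set `X` of four real numbers with
`CP(X) = C(X)`. -/
theorem result : ∃ X : Set ℝ, IsCompact X ∧ ¬ IsPreconnected X ∧ X.ncard = 4 ∧
    CP X = Set.univ := by
  obtain ⟨P⟩ := Pool.Agent.R261.Crit.exists_par
  have ht := P.t_gt
  set X : Set ℝ := {-P.t, -1, 1, P.t} with hX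
  have hfin : X.Finite := by
    rw [hX]
    exact Set.toFinite _
  have hcomp : IsCompact X := hfin.isCompact
  refine ⟨X, hcomp, ?_, ?_, ?_⟩
  · intro hpre
    have h1 : (-1 : ℝ) ∈ X := by simp [hX]
    have h2 : (1 : ℝ) ∈ X := by simp [hX]
    have h3 := hpre.Icc_subset h1 h2 (show (0 : ℝ) ∈ Icc (-1 : ℝ) 1 by constructor <;> norm_num)
    simp only [hX, mem_insert_iff, mem_singleton_iff] at h3
    rcases h3 with h3 | h3 | h3 | h3 <;> linarith
  · have e : X = ((({-P.t, -1, 1, P.t} : Finset ℝ)) : Set ℝ) := by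
      rw [hX]
      push_cast
      rfl
    rw [e, Set.ncard_coe_finset]
    rw [Finset.card_insert_of_notMem, Finset.card_insert_of_notMem, Finset.card_insert_of_notMem,
      Finset.card_singleton]
    · simp only [Finset.mem_singleton]
      linarith
    · simp only [Finset.mem_insert, Finset.mem_singleton, not_or]
      constructor <;> linarith
    · simp only [Finset.mem_insert, Finset.mem_singleton, not_or]
      refine ⟨?_, ?_, ?_⟩ <;> linarith
  · have : CompactSpace X := isCompact_iff_compactSpace.1 hcomp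
    refine Set.eq_univ_of_forall fun f => ?_
    unfold CP
    rw [Metric.mem_closure_iff]
    intro ε hε
    have m1 : -P.t ∈ X := by simp [hX]
    have m2 : (-1 : ℝ) ∈ X := by simp [hX]
    have m3 : (1 : ℝ) ∈ X := by simp [hX]
    have m4 : P.t ∈ X := by simp [hX]
    set f1 := f ⟨-P.t, m1⟩ with hf1
    set f2 := f ⟨-1, m2⟩ with hf2
    set f3 := f ⟨1, m3⟩ with hf3
    set f4 := f ⟨P.t, m4⟩ with hf4
    obtain ⟨d1, hd1, hd1'⟩ := exists_ne_zero_close (f2 - f1) (show 0 < ε / 8 by positivity)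
    obtain ⟨d2, hd2, hd2'⟩ := exists_ne_zero_close (f3 - f2) (show 0 < ε / 8 by positivity)
    obtain ⟨d3, hd3, hd3'⟩ := exists_ne_zero_close (f4 - f3) (show 0 < ε / 8 by positivity)
    obtain ⟨p, hp, hv1, hv2, hv3, hv4⟩ := approx P f1 d1 d2 d3 hd1 hd2 hd3
      (show 0 < ε / 8 by positivity)
    refine ⟨⟨fun x : X => p.eval (x : ℝ), by fun_prop⟩, ⟨p, hp, fun x => rfl⟩, ?_⟩
    rw [abs_lt] at hd1' hd2' hd3' hv2 hv3 hv4
    refine lt_of_le_of_lt ((ContinuousMap.dist_le (by positivity : 0 ≤ ε / 2)).2 ?_)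
      (by linarith : ε / 2 < ε)
    rintro ⟨x, hx⟩
    rw [Real.dist_eq, abs_le]
    have hx' := hx
    simp only [hX, mem_insert_iff, mem_singleton_iff] at hx'
    simp only [ContinuousMap.coe_mk]
    rcases hx' with rfl | rfl | rfl | rfl
    · rw [← hf1, hv1]
      constructor <;> linarith
    · rw [← hf2]
      constructor <;> linarith [hd1'.1, hd1'.2, hv2.1, hv2.2]
    · rw [← hf3]
      constructor <;> linarith [hd1'.1, hd1'.2, hd2'.1, hd2'.2, hv3.1, hv3.2]
    · rw [← hf4]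
      constructor <;> linarith [hd1'.1, hd1'.2, hd2'.1, hd2'.2, hd3'.1, hd3'.2, hv4.1, hv4.2]

end Pool.Agent.Results.MP_57aba6_an.DenseOnFourPoints
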